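import Mathlib

/-!
# Cancellation in the Liouville function along `n² + 1` with a divisor weight: definitions
(MP_892e4c_nt)
-/

namespace Pool.Agent.T2

open Filter Topology MeasureTheory

/-- Gaussian integers -/
abbrev G := GaussianInt

/-- the norm, as a natural number -/
def nn (z : G) : ℕ := z.norm.natAbs

/-- Liouville's function -/
noncomputable def lam (n : ℕ) : ℝ :=
  if n = 0 then 0 else (-1) ^ (ArithmeticFunction.cardFactors n)

/-- Liouville's function of the norm -/
noncomputable def gl (z : G) : ℝ := lam (nn z)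

/-- primitive elements -/
def Prm (z : G) : Prop := Int.gcd z.re z.im = 1

/-- the determinant -/
def det (u v : G) : ℤ := u.re * v.im - u.im * v.re

/-- the inner product -/
def ip (u v : G) : ℤ := u.re * v.re + u.im * v.im

/-- the unit `i` -/
def ui : G := ⟨0, 1⟩

/-- the angular character `(z/|z|)^k` -/
noncomputable def ang (k : ℤ) (z : G) : ℂ := ((z : ℂ) / (‖(z : ℂ)‖ : ℂ)) ^ k

/-- an auxiliary finite box -/
noncomputable def box (n : ℕ) : Finset G :=
  ((Finset.Icc (-(n : ℤ)) n) ×ˢ (Finset.Icc (-(n : ℤ)) n)).map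
    ⟨fun p => (⟨p.1, p.2⟩ : G), fun p q h => by
      cases p; cases q; cases h; rfl⟩

open Classical in
/-- the nonzero elements of norm at most `x` -/
noncomputable def Bl (x : ℝ) : Finset G := (box ⌊x⌋₊).filter (fun z => z ≠ 0 ∧ (nn z : ℝ) ≤ x)

open Classical in
/-- the primitive elements of norm at most `x` -/
noncomputable def PB (x : ℝ) : Finset G := (Bl x).filter Prm

/-- the integers of absolute value at most `K` -/
noncomputable def Ks (K : ℝ) : Finset ℤ := Finset.Icc (-⌊K⌋) ⌊K⌋

/-- characters modulo `m` -/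
structure MChar (m : G) where
  /-- the function -/
  f : G → ℂ
  one : f 1 = 1
  mul : ∀ z w, f (z * w) = f z * f w
  per : ∀ z w, f (z + m * w) = f z
  zero : ∀ z, ¬ IsCoprime z m → f z = 0
  nrm : ∀ z, IsCoprime z m → ‖f z‖ = 1

/-- the character `χ(z) (z/|z|)^k` -/
noncomputable def xi {m : G} (χ : MChar m) (k : ℤ) (z : G) : ℂ := χ.f z * ang k z

/-- the twisted sum of the Liouville function over primitive elements -/
noncomputable def Sm {m : G} (χ : MChar m) (k : ℤ) (x : ℝ) : ℂ :=
  ∑ z ∈ PB x, (gl z : ℂ) * xi χ k z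

open Classical in
/-- the prime element `a + b i` of norm `p` with `a > b > 0` (for primes `p = 1 mod 4`) -/
noncomputable def pel (p : ℕ) : G :=
  if h : ∃ z : G, 0 < z.im ∧ z.im < z.re ∧ nn z = p then h.choose else 1

/-- finite sets of primes `1 mod 4` -/
def Pset (B : Finset ℕ) : Prop := ∀ p ∈ B, p.Prime ∧ p % 4 = 1

/-- the sum of a character over the prime elements of a set of primes -/
noncomputable def Qs {m : G} (χ : MChar m) (k : ℤ) (B : Finset ℕ) : ℂ :=
  ∑ p ∈ B, xi χ k (pel p)

open Classical in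
/-- the primes of `B` in `(ρ^v, ρ^(v+1)]` -/
noncomputable def blk (ρ : ℝ) (v : ℕ) (B : Finset ℕ) : Finset ℕ :=
  B.filter (fun p => ρ ^ v < (p : ℝ) ∧ (p : ℝ) ≤ ρ ^ (v + 1))

/-- the sum of the reciprocals -/
noncomputable def rs (B : Finset ℕ) : ℝ := ∑ p ∈ B, 1 / (p : ℝ)

open Classical in
/-- the primes `1 mod 4` in `(P, Q]` -/
noncomputable def pr1 (P Q : ℝ) : Finset ℕ :=
  (Finset.range (⌊Q⌋₊ + 1)).filter (fun p => p.Prime ∧ p % 4 = 1 ∧ P < (p : ℝ) ∧ (p : ℝ) ≤ Q)

open Classical in
/-- the number of the prime elements `pel p`, `p ∈ B`, which divide `z` -/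
noncomputable def om (B : Finset ℕ) (z : G) : ℝ := ((B.filter (fun p => pel p ∣ z)).card : ℝ)

open Classical in
/-- the sum over a residue class -/
noncomputable def Acl (m : ℕ) (c : G) (k : ℤ) (x : ℝ) : ℂ :=
  ∑ z ∈ (PB x).filter (fun z => (m : G) ∣ z - c), (gl z : ℂ) * ang k z

/-- Dirichlet series over the Gaussian integers -/
noncomputable def Dsum (f : G → ℂ) (s : ℂ) : ℂ := ∑' z : G, f z * (nn z : ℂ) ^ (-s)

open Classical in
/-- the von Mangoldt function, divided by `4` because every ideal has four generators -/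
noncomputable def vM (z : G) : ℝ :=
  if h : ∃ π : G, Prime π ∧ ∃ j : ℕ, 1 ≤ j ∧ Associated z (π ^ j) then
    Real.log (nn h.choose) / 4 else 0

/-- the coefficients of the logarithm -/
noncomputable def kap (z : G) : ℝ := vM z / Real.log (nn z)

/-- the logarithm of a Dirichlet series -/
noncomputable def Esum (f : G → ℂ) (s : ℂ) : ℂ := ∑' z : G, (kap z : ℂ) * f z * (nn z : ℂ) ^ (-s)

/-- completely multiplicative functions of absolute value at most one, trivial on units -/
structure CM (f : G → ℂ) : Prop where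
  zero : f 0 = 0
  one : f 1 = 1
  unit : f ui = 1
  mul : ∀ z w, f (z * w) = f z * f w
  bd : ∀ z, ‖f z‖ ≤ 1

end Pool.Agent.T2
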