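import Pool.Agent.Lib_helper10.T2.DefsE

/-!
# T2, package B (bilinear forms) and package 0: definitions
-/

namespace Pool.Agent.T2

/-- the primes `1 mod 4` in `(P, (1+η)P]` -/
noncomputable def QP (η : ℝ) (P : ℕ) : Finset ℕ := pr1 P ((1 + η) * P)

open Classical in
/-- the primitive elements with norm in `(aY, bY]`, of norm at most `Y` -/
noncomputable def Cel (a b Y : ℝ) : Finset G :=
  (PB Y).filter (fun w => a * Y < (nn w : ℝ) ∧ (nn w : ℝ) ≤ b * Y)

open Classical in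
/-- the sum over the pairs with determinant in `B` -/
noncomputable def BQ (a b a' b' : ℝ) (B : Finset ℕ) (Y : ℝ) : ℝ :=
  ∑ u ∈ Cel a b Y, ∑ w ∈ (Cel a' b' Y).filter (fun w => 0 < ip u w ∧
    ∃ p ∈ B, det u w = (p : ℤ)), gl u * gl w

open Classical in
/-- number of the `u` over a pair `w, w'` -/
noncomputable def NN (a b : ℝ) (B : Finset ℕ) (Y : ℝ) (w w' : G) : ℝ :=
  (((Bl Y).filter (fun u => a * Y < (nn u : ℝ) ∧ (nn u : ℝ) ≤ b * Y ∧ 0 < ip u w ∧ 0 < ip u w' ∧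
    (∃ p ∈ B, det u w = (p : ℤ)) ∧ ∃ p ∈ B, det u w' = (p : ℤ))).card : ℝ)

open Classical in
/-- number of pairs `(p, p')` of elements of `B` with `D ∣ p' w - p w'` -/
noncomputable def NP (B : Finset ℕ) (D : ℤ) (w w' : G) : ℝ :=
  (((B ×ˢ B).filter (fun t => (D : G) ∣ (t.2 : G) * w - (t.1 : G) * w')).card : ℝ)

open Classical in
/-- number of pairs `(p, p')` of elements of `B` with `p' = κ p` modulo `D` -/
noncomputable def ND (B : Finset ℕ) (D : ℕ) (κ : ℤ) : ℝ :=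
  (((B ×ˢ B).filter (fun t => (D : ℤ) ∣ (t.2 : ℤ) - κ * t.1)).card : ℝ)

/-- the expected value of `ND` -/
noncomputable def MD (B : Finset ℕ) (R₀ D : ℕ) (κ : ℤ) : ℝ :=
  (Nat.totient (Nat.gcd D R₀.factorial) : ℝ) / Nat.totient D * ND B (Nat.gcd D R₀.factorial) κ

/-- the expected value of `NP` -/
noncomputable def MP (B : Finset ℕ) (R₀ : ℕ) (w w' : G) : ℝ :=
  (Nat.totient (Nat.gcd (det w w').natAbs R₀.factorial) : ℝ) / Nat.totient (det w w').natAbs *
    NP B ((Nat.gcd (det w w').natAbs R₀.factorial : ℕ) : ℤ) w w'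

open Classical in
/-- truncation of `1/φ(D)` -/
noncomputable def trn (R₁ D : ℕ) : ℝ :=
  (1 / (D : ℝ)) * ∑ r ∈ (Finset.Icc 1 R₁).filter (fun r => Squarefree r ∧ r ∣ D),
    1 / (Nat.totient r : ℝ)

/-- truncation of `MP` -/
noncomputable def MT (B : Finset ℕ) (R₀ R₁ : ℕ) (w w' : G) : ℝ :=
  (Nat.totient (Nat.gcd (det w w').natAbs R₀.factorial) : ℝ) * trn R₁ (det w w').natAbs *
    NP B ((Nat.gcd (det w w').natAbs R₀.factorial : ℕ) : ℤ) w w'

/-- the ratio which has to be in `(√a, √b]` -/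
noncomputable def sr (P : ℕ) (Y : ℝ) (w w' : G) : ℝ :=
  (Real.sqrt (nn w / Y) - Real.sqrt (nn w' / Y)) * P / (det w w' : ℝ)

/-- medium determinant, same direction -/
def Med (a δ : ℝ) (P : ℕ) (w w' : G) : Prop :=
  δ * P < |(det w w' : ℝ)| ∧ |(det w w' : ℝ)| ≤ 4 / Real.sqrt a * P ∧ 0 < ip w w'

/-- the pairs `w, w'` with the full number of `u` -/
def Core (a b δ τ : ℝ) (P : ℕ) (Y : ℝ) (w w' : G) : Prop :=
  Med a δ P w w' ∧ Real.sqrt a + τ ≤ sr P Y w w' ∧ sr P Y w w' ≤ Real.sqrt b - τ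

open Classical in
/-- primitive Dirichlet characters modulo `d` -/
noncomputable def Pch (d : ℕ) : Finset (DirichletCharacter ℂ d) :=
  Finset.univ.filter (fun ψ => ψ.IsPrimitive)

/-- the hat function -/
noncomputable def hat (t : ℝ) : ℝ := max 0 (1 - |t|)

/-- the oriented angle from `w` to `w'` -/
noncomputable def ag (w w' : G) : ℝ := Complex.arg ((w' : ℂ) / (w : ℂ))

end Pool.Agent.T2
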