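import Pool.Agent.Lib_helper10.T2.Defs

/-!
# T2, package E (equidistribution of pairs of determinant one): definitions
-/

namespace Pool.Agent.T2

/-- the pairs of determinant `1` in a residue class and in a box -/
def Reg (q : ℕ) (v₀ w₀ : G) (a b ξ₁ ξ₂ Y : ℝ) : Set (G × G) :=
  {p | det p.1 p.2 = 1 ∧ (q : G) ∣ p.1 - v₀ ∧ (q : G) ∣ p.2 - w₀ ∧
    a * Y < (nn p.1 : ℝ) ∧ (nn p.1 : ℝ) ≤ b * Y ∧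
    ξ₁ * (nn p.1 : ℝ) ≤ (ip p.1 p.2 : ℝ) ∧ (ip p.1 p.2 : ℝ) < ξ₂ * (nn p.1 : ℝ)}

/-- the pairs `(w, w')` of determinant `D` with `w' = κ w` modulo `D`, in a box -/
def RegK (D κ : ℤ) (a b ξ₁ ξ₂ Y : ℝ) : Set (G × G) :=
  {p | det p.1 p.2 = D ∧ (D : G) ∣ p.2 - (κ : G) * p.1 ∧
    a * Y < (nn p.1 : ℝ) ∧ (nn p.1 : ℝ) ≤ b * Y ∧
    ξ₁ * (nn p.1 : ℝ) ≤ (ip p.1 p.2 : ℝ) ∧ (ip p.1 p.2 : ℝ) < ξ₂ * (nn p.1 : ℝ)}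

/-- the same in a strip around the graph of a function -/
def RegS (D κ : ℤ) (r₀ τ : ℝ) (φ : ℝ → ℝ) (Y : ℝ) : Set (G × G) :=
  {p | det p.1 p.2 = D ∧ (D : G) ∣ p.2 - (κ : G) * p.1 ∧ 0 < ip p.1 p.2 ∧
    (nn p.1 : ℝ) ≤ Y ∧ r₀ ≤ Real.sqrt (nn p.1 / Y) ∧
    |Real.sqrt (nn p.2 / Y) - φ (Real.sqrt (nn p.1 / Y))| ≤ τ}

end Pool.Agent.T2
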